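import Pool.Agent.TH154.AlcovedFinal

set_option autoImplicit false

/-!
# MP_eba1ef_gt: the Levi-Hadwiger covering conjecture for alcoved bodies

Let `c` be a quasi-metric on `n + 1` points `0, …, n`: `c i i = 0`, the triangle inequality, and
`c i j + c j i > 0` for `i ≠ j` (symmetry is not assumed). The alcoved body of `c` is the convex
body of the `x` in `ℝ^n` with `x i - x j ≤ c i j` for all `i, j`, where `x 0 = 0`. Such bodies are
known as alcoved polytopes or polytropes (the polytopes all of whose facet normals are roots of
type `A_n`; they are the bounded cells of tropical polytopes); if `c` is a metric, this is the unit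
ball of the space `Lip₀` of the Lipschitz functions on the metric space vanishing at the base point.

Main theorem. Suppose that the points can be ordered so that no point is strictly between two
earlier points (`k` is strictly between `i` and `j` if `c i j = c i k + c k j`), and so that none of
the first `s` points is strictly between two other ones of the first `s` points. Then the
body is covered by `(s choose ⌊s/2⌋) 2 ^ (n + 1 - s)` translates of its interior. In particular
`2 ^ n` translates suffice, and `2 ^ n - 1` translates suffice unless the body is a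
parallelotope. For `s = n + 1` there is no condition but the strict triangle inequality (this is
the generic case, with all `n (n + 1)` facets), and the bound is `(n + 1 choose ⌊(n + 1)/2⌋)`.

The bound is attained for all `s` and `n`.

Application. If `X` is a set of `n + 1` points in a strictly convex normed space (for instance a
Euclidean space) then the unit ball of `Lip₀(X)` is covered by `2 ^ n` translates of its
interior; if `X` is not contained in a line, by `2 ^ n - 1` translates; if no three points of `X`
are on a line, by `(n + 1 choose ⌊(n + 1)/2⌋)` translates.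

The proof. At a boundary point `x` the tight inequalities form a strict partial order, and a
direction illuminates `x` if it is increasing for this order. If no point is strictly between two
others, then the order has height two and is given by its set of minimal elements; a
chain decomposition of the power set gives the directions. A point which is not strictly between
two earlier ones cannot be above one and below another of them; so it can be put first or last.
For the equality case: as long as each new point is pendant at an earlier one, the body is a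
parallelotope; the first time it is not, one order with the new point second serves two vertices.
-/

namespace Pool.Agent.Results.MP_eba1ef_gt.AlcovedBodies

open Pool.Agent.TH154

/-- `c` is a quasi-metric on the points `0, …, n`. -/
structure IsQuasiMetric {n : ℕ} (c : Fin (n + 1) → Fin (n + 1) → ℝ) : Prop where
  self : ∀ i, c i i = 0
  triangle : ∀ i j k, c i j ≤ c i k + c k j
  pos : ∀ i j, i ≠ j → 0 < c i j + c j i

/-- The vector `x` of `ℝ^n` as a function on the points `0, …, n`, with the value `0` at `0`. -/
def extend {n : ℕ} (x : EuclideanSpace ℝ (Fin n)) : Fin (n + 1) → ℝ :=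
  Fin.cons 0 (fun i => x i)

/-- The alcoved body of `c`: the `x` with `x i - x j ≤ c i j` for all `i`, `j`, where `x 0 = 0`. -/
def alcoved {n : ℕ} (c : Fin (n + 1) → Fin (n + 1) → ℝ) : Set (EuclideanSpace ℝ (Fin n)) :=
  {x | ∀ i j, extend x i - extend x j ≤ c i j}

/-- In the ordering `σ` of the points, none of the first `s` points is strictly between two other
ones of the first `s` points, and no later point is strictly between two earlier points. -/
structure IsElimination {n : ℕ} (c : Fin (n + 1) → Fin (n + 1) → ℝ) (s : ℕ)
    (σ : Equiv.Perm (Fin (n + 1))) : Prop where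
  core : ∀ i j k, i ≠ j → i ≠ k → j ≠ k → (σ i : ℕ) < s → (σ j : ℕ) < s → (σ k : ℕ) < s →
    c i j < c i k + c k j
  elim : ∀ i j k, i ≠ j → σ i < σ k → σ j < σ k → s ≤ (σ k : ℕ) → c i j < c i k + c k j

/-- `K` is covered by at most `M` translates of its interior. -/
def CoveredBy {n : ℕ} (K : Set (EuclideanSpace ℝ (Fin n))) (M : ℕ) : Prop :=
  ∃ T : Finset (EuclideanSpace ℝ (Fin n)), T.card ≤ M ∧
    K ⊆ ⋃ t ∈ T, (fun x => t + x) '' interior K

/-- `K` is a parallelotope. -/
def IsParallelotope {n : ℕ} (K : Set (EuclideanSpace ℝ (Fin n))) : Prop :=
  ∃ (L : EuclideanSpace ℝ (Fin n) ≃ₗ[ℝ] (Fin n → ℝ)) (a b : Fin n → ℝ), (∀ i, a i < b i) ∧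
    K = {x | ∀ i, a i ≤ L x i ∧ L x i ≤ b i}

/-- **Main theorem.** -/
theorem result :
    -- the bound, and the equality case
    (∀ (n s : ℕ) (c : Fin (n + 1) → Fin (n + 1) → ℝ) (σ : Equiv.Perm (Fin (n + 1))),
      1 ≤ s → s ≤ n + 1 → IsQuasiMetric c → IsElimination c s σ →
      (Convex ℝ (alcoved c) ∧ IsCompact (alcoved c) ∧ (interior (alcoved c)).Nonempty) ∧
      CoveredBy (alcoved c) (s.choose (s / 2) * 2 ^ (n + 1 - s)) ∧
      CoveredBy (alcoved c) (2 ^ n) ∧
      (IsParallelotope (alcoved c) ∨ CoveredBy (alcoved c) (2 ^ n - 1))) ∧
    -- the bound is attained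
    (∀ n s : ℕ, 1 ≤ s → s ≤ n + 1 →
      ∃ (c : Fin (n + 1) → Fin (n + 1) → ℝ) (σ : Equiv.Perm (Fin (n + 1))),
        IsQuasiMetric c ∧ IsElimination c s σ ∧
        ∀ M : ℕ, CoveredBy (alcoved c) M → s.choose (s / 2) * 2 ^ (n + 1 - s) ≤ M) ∧
    -- the unit ball of `Lip₀` of a finite set in a strictly convex space
    (∀ (V : Type) [NormedAddCommGroup V] [NormedSpace ℝ V] [StrictConvexSpace ℝ V] (n : ℕ)
      (p : Fin (n + 1) → V), Function.Injective p →
      CoveredBy (alcoved (fun i j => dist (p i) (p j))) (2 ^ n) ∧
      (¬ Collinear ℝ (Set.range p) →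
        CoveredBy (alcoved (fun i j => dist (p i) (p j))) (2 ^ n - 1)) ∧
      ((∀ i j k, i ≠ j → i ≠ k → j ≠ k → ¬ Wbtw ℝ (p i) (p k) (p j)) →
        CoveredBy (alcoved (fun i j => dist (p i) (p j))) ((n + 1).choose ((n + 1) / 2)))) := by
  refine ⟨?_, ?_, ?_⟩
  · intro n s c σ hs hsn hc hσ
    have helim : ∀ i j k, i ≠ j → σ i < σ k → σ j < σ k → c i j < c i k + c k j := by
      intro i j k hij hik hjk
      by_cases hk : s ≤ (σ k : ℕ)
      · exact hσ.elim i j k hij hik hjk hk
      · have hik' : (σ i : ℕ) < σ k := hik
        have hjk' : (σ j : ℕ) < σ k := hjk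
        refine hσ.core i j k hij ?_ ?_ (by omega) (by omega) (by omega)
        · rintro rfl
          exact lt_irrefl _ hik
        · rintro rfl
          exact lt_irrefl _ hjk
    refine ⟨⟨Alc.convex_body c, Alc.isCompact_body c,
      Alc.nonempty_interior c hc.self hc.triangle hc.pos⟩, ?_, ?_, ?_⟩
    · exact Alc.covered c s hsn hc.self hc.pos σ hσ.core hσ.elim
    · have := Alc.covered c 1 (by omega) hc.self hc.pos σ
        (fun i j k hij _ _ hi hj _ => absurd (σ.injective (Fin.ext (by omega))) hij)
        (fun i j k hij hi hj _ => helim i j k hij hi hj)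
      have e : Nat.choose 1 (1 / 2) * 2 ^ (n + 1 - 1) = 2 ^ n := by simp
      rw [e] at this
      exact this
    · exact Alc.covered_or_parallelotope c hc.self hc.triangle hc.pos σ helim
  · intro n s hs hsn
    refine ⟨Alc.star s, 1, ⟨Alc.star_self s, Alc.star_tri s, fun i j hij => ?_⟩, ⟨?_, ?_⟩, ?_⟩
    · have := Alc.star_ge s hij
      have := Alc.star_nonneg s j i
      linarith
    · intro i j k hij hik hjk hi hj _
      exact Alc.star_core s hij hik hjk hi hj
    · intro i j k hij hik hjk hk
      exact Alc.star_elim s hs hij hik hjk hk
    · intro M hM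
      exact Alc.star_lower s hs hsn M hM
  · intro V _ _ _ n p hp
    exact Alc.lip_covered p hp

end Pool.Agent.Results.MP_eba1ef_gt.AlcovedBodies
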