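import Pool.Agent.TH542.Had.Box

set_option autoImplicit false

/-!
# MP_eba1ef_gt: convex bodies which are down-closed in some directions

Let `c(X)` be the least number of translates of the relative interior of `X` that cover `X`.
Let `K` be a convex body in `ℝ^n` with `m` supporting half spaces `φ i ≥ a i` and vectors `v i`
with `φ i (v j) = δ i j`, such that for every `i` the projection along `v i` onto the supporting
hyperplane `φ i = a i` maps `K` into itself. (So in suitable coordinates `(u, y) ∈ ℝ^(n-m) × ℝ^m`
of `ℝ^n` we have `y ≥ 0` on `K`, and `(u, y) ∈ K`, `0 ≤ y' ≤ y` imply `(u, y') ∈ K`. For `m = 1`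
these are the regions under the graph of a nonnegative concave function on a convex body of
`ℝ^(n-1)`; for `m = n` these are the convex corners (anti-blocking bodies).) Let the foot `B` be
the intersection of `K` with the `m` hyperplanes. It is proved:

1. `c(K) ≤ 2 ^ m c(B)`.
2. If `m ≥ n - 2` then `c(K) ≤ 2 ^ n`, as conjectured. For example a convex body in `ℝ³` satisfies
   the conjecture if some projection onto a supporting plane maps it into itself.
3. If all convex bodies in `ℝ^(n-m)` satisfy the conjecture then so does `K`. In particular a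
   counterexample of least dimension is mapped into itself by no projection onto a supporting
   hyperplane.
4. If `m = n` then `c(K) < 2 ^ n` if and only if `K` is not a parallelotope with its facets
   parallel to the `n` hyperplanes.

The proof. Let `W` illuminate `B`. By compactness there are `r, c > 0` such that for every `x ∈ B`
some `w ∈ W` leads from `x` to a point `x + r w` with `(x + r w, q)` in the interior of `K` for all
`q` with `0 < q i ≤ c`. Then the `2 ^ m |W|` directions `(r w, u_S)`, where `S` is a set of
coordinates, `u_S = -R` on `S` and `u_S = c / 2` off `S`, illuminate `K` if `R` is large: for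
`(x, y) ∈ K` take `S = {i : y i > c / 2}`. If `m = n` and `K` is not a parallelotope then for some
`γ > 0` each point of `K` has a coordinate `y i` less than the maximum minus `γ`, and the direction
with `S` everything is replaced by the directions where only `i` is missing in `S`. Conversely two
vertices of a parallelotope lie in no common translate of its interior.
-/

namespace Pool.Agent.Results.MP_eba1ef_gt.DownClosedBodies

/-- The Euclidean space `ℝ^d`. -/
abbrev Eu (d : ℕ) : Type := EuclideanSpace ℝ (Fin d)

/-- `K` is a convex body: convex, compact, with nonempty interior. -/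
def IsConvexBody {d : ℕ} (K : Set (Eu d)) : Prop :=
  Convex ℝ K ∧ IsCompact K ∧ (interior K).Nonempty

/-- `K` is covered by at most `N` translates of its interior. -/
def CoveredBy {d : ℕ} (K : Set (Eu d)) (N : ℕ) : Prop :=
  ∃ T : Finset (Eu d), T.card ≤ N ∧ K ⊆ ⋃ t ∈ T, (fun x => t + x) '' interior K

/-- `A` is covered by at most `N` translates of its relative interior. -/
def RelCoveredBy {d : ℕ} (A : Set (Eu d)) (N : ℕ) : Prop :=
  ∃ T : Finset (Eu d), T.card ≤ N ∧ A ⊆ ⋃ t ∈ T, (fun x => t + x) '' intrinsicInterior ℝ A

/-- The vectors `v i` are dual to the linear functionals `φ i`, the set `K` lies in the half spaces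
`φ i ≥ a i`, and the projections `x ↦ x - (φ i x - a i) v i` along `v i` onto the hyperplanes
`φ i = a i` map `K` into `K`. -/
structure IsDownClosed {n m : ℕ} (K : Set (Eu n)) (φ : Fin m → (Eu n →ₗ[ℝ] ℝ)) (v : Fin m → Eu n)
    (a : Fin m → ℝ) : Prop where
  dual : ∀ i j, φ i (v j) = if i = j then 1 else 0
  supp : ∀ x ∈ K, ∀ i, a i ≤ φ i x
  proj : ∀ x ∈ K, ∀ i, x - (φ i x - a i) • v i ∈ K

/-- The foot: the intersection of `K` with the hyperplanes `φ i = a i`. -/
def foot {n m : ℕ} (K : Set (Eu n)) (φ : Fin m → (Eu n →ₗ[ℝ] ℝ)) (a : Fin m → ℝ) : Set (Eu n) :=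
  {x | x ∈ K ∧ ∀ i, φ i x = a i}

/-- **Main theorem.** Let `K` be a convex body in `ℝ^n` which is down-closed with respect to `m`
functionals `φ i`.
1. If the foot is covered by `N` translates of its relative interior, then `K` is covered by
`2 ^ m N` translates of its interior.
2. If `n ≤ m + 2` then `K` is covered by `2 ^ n` translates of its interior.
3. If every convex body in `ℝ^(n-m)` is covered by `2 ^ (n-m)` translates of its interior then `K`
is covered by `2 ^ n` translates of its interior.
4. If `m = n` then `K` is covered by `2 ^ n - 1` translates of its interior if and only if it is not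
of the form `{x | ∀ i, a i ≤ φ i x ≤ β i}`. -/
theorem result (n m : ℕ) (K : Set (Eu n)) (φ : Fin m → (Eu n →ₗ[ℝ] ℝ)) (v : Fin m → Eu n)
    (a : Fin m → ℝ) (hK : IsConvexBody K) (h : IsDownClosed K φ v a) :
    (∀ N : ℕ, RelCoveredBy (foot K φ a) N → CoveredBy K (2 ^ m * N)) ∧
    (n ≤ m + 2 → CoveredBy K (2 ^ n)) ∧
    ((∀ L : Set (Eu (n - m)), IsConvexBody L → CoveredBy L (2 ^ (n - m))) →
      CoveredBy K (2 ^ n)) ∧
    (m = n → (CoveredBy K (2 ^ n - 1) ↔
      ¬ ∃ β : Fin m → ℝ, K = {x | ∀ i, a i ≤ φ i x ∧ φ i x ≤ β i})) := by
  have hf : Pool.Agent.TH542.Had.Frame K φ v a := ⟨h.dual, h.supp, h.proj⟩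
  refine ⟨fun N hN => Pool.Agent.TH542.Had.bound_rel hf hK hN,
    fun hn => Pool.Agent.TH542.Had.bound_two hf hK hn,
    fun hind => Pool.Agent.TH542.Had.bound_ind hf hK hind, fun hmn => ?_⟩
  subst hmn
  exact Pool.Agent.TH542.Had.corner_iff hf hK

end Pool.Agent.Results.MP_eba1ef_gt.DownClosedBodies
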