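import Pool.Agent.TH349.Had.Main2

set_option autoImplicit false

/-!
# MP_eba1ef_gt: polytopes with few directions of facets

A slab in `ℝ^d` is the set between two parallel hyperplanes. It is proved:

1. If a convex body `K` in `ℝ^d` is the intersection of at most `d + 2` slabs (in other words: the
   facets of the polytope `K` have at most `d + 2` directions), then `K` is covered by `2 ^ d`
   translates of its interior. For example all polytopes with at most `d + 2` facets, all centrally
   symmetric polytopes with at most `d + 2` pairs of facets, and all sections of the `n`-cube by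
   affine subspaces of codimension at most `2`, have this property.
2. If `K` is the intersection of at most `d + 1` slabs, and not a parallelotope, then `K` is covered
   by `2 ^ d - 1` translates of its interior. For example all sections of the `n`-cube by
   hyperplanes (hypersimplices).
3. Let `K` be the part of the cube `[-1,1]^d` cut out by arbitrarily many half spaces `g ≤ 1`, and
   suppose that for every point of `K` the sum of `|g j|` over the half spaces which have this
   point in their boundary is at most `1/2` for each free coordinate `j` of the point. Then `K` is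
   covered by `2 ^ d` translates of its interior.

The proof. (1) Choose `d` of the functionals with maximal determinant. In coordinates, `K` is the
part of the cube `[-1,1]^d` where `|h 1|, |h 2| ≤ 1`, and the coefficients of `h l` are at most one.
For every vertex `τ` of the cube one direction `v τ`, with the signs of `-τ`, is chosen. It is enough
to illuminate the vertices `x` of `K`, which have at most two free coordinates: one looks for a
rounding `τ` of the free coordinates to `±1` such that `v τ` points inwards for the tight slabs.
If `h 1 = h 2 = 0` in an interior point of the cube, then `v τ` is essentially chosen with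
`h l (v τ)` of the sign opposite to `h l (τ)`, and a rounding lemma in the plane shows that it
works; there is one sort of ties, which is broken by a small rotation of the plane. If there is no
such point, then after a change of signs `h 1 ≥ -1` follows from the other inequalities. Then
`v τ` points inwards for `h 1 ≤ 1` and for the upper or lower side of the second slab whenever this
is possible (it is not, if `τ` is mapped to a certain part of the boundary of the polygon
`h [-1,1]^d`), for the lower side if `h 2 (τ) ≤ -1` or if `τ` has such a neighbour in this part of the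
boundary. (2) is similar, and some direction is not needed. (3) The directions are `-τ`, and the
vertices of `K` are rounded as in the proof of the Beck-Fiala theorem.
-/

namespace Pool.Agent.Results.MP_eba1ef_gt.FewSlabs

/-- The Euclidean space `ℝ^d`. -/
abbrev Eu (d : ℕ) : Type := EuclideanSpace ℝ (Fin d)

/-- `K` is a convex body: convex, compact, with nonempty interior. -/
def IsConvexBody {d : ℕ} (K : Set (Eu d)) : Prop :=
  Convex ℝ K ∧ IsCompact K ∧ (interior K).Nonempty

/-- `K` is covered by at most `N` translates of its interior. -/
def CoveredBy {d : ℕ} (K : Set (Eu d)) (N : ℕ) : Prop :=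
  ∃ T : Finset (Eu d), T.card ≤ N ∧ K ⊆ ⋃ t ∈ T, (fun x => t + x) '' interior K

/-- `K` is the intersection of `n` slabs `|φ i - c i| ≤ 1`, where the `φ i` are linear functionals.
(Every slab `a ≤ ψ ≤ b` with `a < b` is of this form.) -/
def IsIntersectionOfSlabs {d : ℕ} (n : ℕ) (K : Set (Eu d)) : Prop :=
  ∃ (φ : Fin n → (Eu d →ₗ[ℝ] ℝ)) (c : Fin n → ℝ), K = {x | ∀ i, |φ i x - c i| ≤ 1}

/-- **Main theorem.**
1. A convex body in `ℝ^d` which is the intersection of at most `d + 2` slabs is covered by `2 ^ d`
translates of its interior.
2. A convex body in `ℝ^d` which is the intersection of at most `d + 1` slabs, and is not a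
parallelotope (intersection of `d` slabs), is covered by `2 ^ d - 1` translates of its interior.
3. Let `K` be the set of all points `x` of the cube with `∑ j, g l j * x j ≤ 1` for `l = 1, ..., m`.
Suppose that `∑ l ∈ R, |g l j| ≤ 1 / 2` whenever equality holds for `l ∈ R` at a point of `K`
with `|x j| < 1`. Then `K` is covered by `2 ^ d` translates of its interior. -/
theorem result (d : ℕ) :
    (∀ (n : ℕ) (K : Set (Eu d)), n ≤ d + 2 → IsConvexBody K → IsIntersectionOfSlabs n K →
      CoveredBy K (2 ^ d)) ∧
    (∀ (n : ℕ) (K : Set (Eu d)), n ≤ d + 1 → IsConvexBody K → IsIntersectionOfSlabs n K →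
      ¬ IsIntersectionOfSlabs d K → CoveredBy K (2 ^ d - 1)) ∧
    (∀ (m : ℕ) (g : Fin m → Fin d → ℝ) (K : Set (Eu d)),
      K = {x | (∀ j, |x j| ≤ 1) ∧ ∀ l, ∑ j, g l j * x j ≤ 1} →
      (∀ x ∈ K, ∀ R : Finset (Fin m), (∀ l ∈ R, ∑ j, g l j * x j = 1) →
        ∀ j, |x j| < 1 → ∑ l ∈ R, |g l j| ≤ 1 / 2) →
      CoveredBy K (2 ^ d)) := by
  refine ⟨?_, ?_, ?_⟩
  · rintro n K hn ⟨-, hKc, hKi⟩ ⟨φ, c, rfl⟩
    exact Pool.Agent.TH349.Had.cov_slabs (by simp) hn φ c hKc hKi
  · rintro n K hn ⟨-, hKc, hKi⟩ ⟨φ, c, rfl⟩ hp
    rcases Pool.Agent.TH349.Had.cov_slabs_one (by simp) hn φ c hKc hKi with h | ⟨ψ, a, h⟩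
    · exact h
    · exact absurd ⟨ψ, a, h⟩ hp
  · intro m g K hK h
    have h1 := Pool.Agent.TH349.Had.cov_BF (M := Fin m) (ι := Fin d) g (fun x hx R hR j hj => by
      refine h (WithLp.toLp 2 x) ?_ R hR j hj
      rw [hK]
      exact hx)
    have h2 := Pool.Agent.TH349.Had.cov_transfer
      (WithLp.linearEquiv 2 ℝ (Fin d → ℝ) : Eu d ≃ₗ[ℝ] (Fin d → ℝ)) 0 _ h1
    rw [Fintype.card_fin] at h2
    have e : {x : Eu d | (WithLp.linearEquiv 2 ℝ (Fin d → ℝ) : Eu d ≃ₗ[ℝ] (Fin d → ℝ)) (x - 0) ∈
        Pool.Agent.TH349.Had.Cu g fun _ => 1} = K := by
      rw [hK]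
      ext x
      simp only [Set.mem_ofPred_eq, sub_zero]
      rfl
    rw [e] at h2
    exact h2

end Pool.Agent.Results.MP_eba1ef_gt.FewSlabs
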