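import Pool.Agent.TH597.JC.Final
import Pool.Agent.TH591.Lie.Final

/-!
# Coverings by translates of the interior: operator algebras and Lie groups of symmetries

1. The closed unit balls of the finite dimensional unital JC*-algebras `J` (`N = dim_ℂ J`, a convex
   body of dimension `2 N`) are covered by at most `2 ^ (2 N)` translates of their interior, the
   conjectured bound, and by at most `2 ^ (N + 1) * N * log (57 * N)`; for `J = ℂ ^ N` at least
   `2 ^ N` are needed.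
2. Let `K = -K` be a convex body in a Euclidean space `E` of dimension `d ≥ 2` which is invariant
   under an orthogonal representation of `SO(n)` (`n ≥ 3`) on `E` without nonzero fixed vectors,
   whose matrix coefficients are polynomials of degree at most `k` in the entries of the rotation.
   Put `s = (n - 2) / (2048 k²)`. Then `K` is covered by at most `1 + 13 d log(4d+1) 2^d e^(-2s)`
   translates of its interior, and by less than `2^d` if `s ≥ 5` and `log d ≤ s`. Examples are the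
   unit balls of all norms of `n × m` matrices with `‖U A‖ = ‖A‖` for all rotations `U` (`k = 1`,
   all `m` with `log (n m) ≤ (n - 2) / 2048`, `n ≥ 10242`).
3. The same is true, with `s = γ / (4096 κ²)`, if `K` is invariant under the one-parameter groups
   generated by a compact semisimple Lie algebra of skew-symmetric operators of `E` without a
   common kernel, given by an orthonormal basis `X_i` with respect to some invariant inner
   product, such that the Killing form is at least `γ` (in absolute value), and `κ` is the largest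
   norm of an operator `∑ a_i X_i` with `∑ a_i² = 1`.

Proof of 1: packing in the set of the unitaries of `J`, with the Hausdorff measure and the squaring
map. Proof of 2 and 3 (helper591): by Bernstein's inequality, the Casimir operator, a maximum
principle and integration by parts along the flows all functionals of `K` are subgaussian on `K`,
and the theorem on thin slabs of the starting library applies.
-/

set_option autoImplicit false

open Module Metric Set
open scoped InnerProductSpace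

namespace Pool.Agent.Results.MP_eba1ef_gt.JordanAlgebrasAndLieSymmetries

/-- `J` is a unital JC*-algebra: a complex linear subspace of the C*-algebra `A` which contains
the unit of `A` and is closed under the involution and under squares. -/
structure UnitalJCStar {A : Type*} [CStarAlgebra A] (J : Submodule ℂ A) : Prop where
  one_mem : (1 : A) ∈ J
  star_mem : ∀ x ∈ J, star x ∈ J
  sq_mem : ∀ x ∈ J, x * x ∈ J

/-- The translates by the vectors of `T` of the interior of the closed unit ball of `E` cover the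
closed unit ball of `E`. -/
def CoversBall (E : Type*) [NormedAddCommGroup E] (T : Finset E) : Prop :=
  closedBall (0 : E) 1 ⊆ ⋃ t ∈ T, (fun x => t + x) '' interior (closedBall (0 : E) 1)

lemma coversBall_of {E : Type*} [NormedAddCommGroup E] {T : Finset E}
    (hT : ∀ x : E, ‖x‖ ≤ 1 → ∃ t ∈ T, ‖x - t‖ < 1) : CoversBall E T := by
  intro x hx
  rw [mem_closedBall_zero_iff] at hx
  obtain ⟨t, ht, hxt⟩ := hT x hx
  refine mem_iUnion₂.2 ⟨t, ht, x - t, ?_, by simp⟩
  refine ball_subset_interior_closedBall ?_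
  rwa [mem_ball_zero_iff]

lemma of_coversBall {E : Type*} [NormedAddCommGroup E] [NormedSpace ℝ E] {T : Finset E}
    (hT : CoversBall E T) (x : E) (hx : ‖x‖ ≤ 1) : ∃ t ∈ T, ‖x - t‖ < 1 := by
  have h1 := hT (mem_closedBall_zero_iff.2 hx)
  obtain ⟨t, ht, y, hy, hyx⟩ := mem_iUnion₂.1 h1
  refine ⟨t, ht, ?_⟩
  rw [interior_closedBall (0 : E) one_ne_zero, mem_ball_zero_iff] at hy
  have : x - t = y := by rw [← hyx]; simp
  rwa [this]

lemma lift_cover {A : Type*} [CStarAlgebra A] (J : Submodule ℂ A) (T : Finset A) (lam : ℝ)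
    (hlam : lam < 1) (hTJ : ∀ t ∈ T, t ∈ J) (hT : ∀ x ∈ J, ‖x‖ ≤ 1 → ∃ t ∈ T, ‖x - t‖ ≤ lam) :
    ∃ T' : Finset J, T'.card ≤ T.card ∧ CoversBall J T' := by
  classical
  refine ⟨T.attach.image fun t => (⟨t.1, hTJ t.1 t.2⟩ : J), ?_, ?_⟩
  · exact Finset.card_image_le.trans (by rw [Finset.card_attach])
  · refine coversBall_of fun x hx => ?_
    obtain ⟨t, ht, hxt⟩ := hT x x.2 hx
    refine ⟨⟨t, hTJ t ht⟩, ?_, lt_of_le_of_lt hxt hlam⟩
    exact Finset.mem_image.2 ⟨⟨t, ht⟩, Finset.mem_attach _ _, rfl⟩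

theorem upper {A : Type*} [CStarAlgebra A] [Nontrivial A] (J : Submodule ℂ A)
    [FiniteDimensional ℂ J] (h : UnitalJCStar J) :
    ∃ T : Finset J, CoversBall J T ∧ T.card ≤ 2 ^ finrank ℝ J ∧
      (T.card : ℝ) ≤
        2 ^ (finrank ℂ J + 1) * (finrank ℂ J : ℝ) * Real.log (57 * (finrank ℂ J : ℝ)) := by
  have hJ : Pool.Agent.TH597.JC.JCAlg J := ⟨h.one_mem, h.star_mem, h.sq_mem⟩
  have k1 : ∃ T : Finset J, T.card ≤ 2 ^ finrank ℝ J ∧ CoversBall J T := by
    obtain ⟨T, hT, hc, hcov⟩ := Pool.Agent.TH597.JC.cover_four hJ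
    obtain ⟨T1, lam, -, hlam, hT1, hc1, hcov1⟩ := Pool.Agent.TH597.JC.cover_ball hJ T hT hcov
    obtain ⟨T2, hc2, hcov2⟩ := lift_cover J T1 lam hlam hT1 hcov1
    refine ⟨T2, ?_, hcov2⟩
    have h2 : finrank ℝ J = 2 * finrank ℂ J := finrank_real_of_complex J
    rw [h2, pow_mul]
    exact hc2.trans (hc1.trans hc)
  have k2 : ∃ T : Finset J, (T.card : ℝ) ≤
      2 ^ (finrank ℂ J + 1) * (finrank ℂ J : ℝ) * Real.log (57 * (finrank ℂ J : ℝ)) ∧
        CoversBall J T := by
    obtain ⟨T, hT, hc, hcov⟩ := Pool.Agent.TH597.JC.cover_two hJ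
    obtain ⟨T1, lam, -, hlam, hT1, hc1, hcov1⟩ := Pool.Agent.TH597.JC.cover_ball hJ T hT hcov
    obtain ⟨T2, hc2, hcov2⟩ := lift_cover J T1 lam hlam hT1 hcov1
    refine ⟨T2, ?_, hcov2⟩
    have h2 : (T2.card : ℝ) ≤ T.card := by exact_mod_cast hc2.trans hc1
    exact h2.trans hc
  obtain ⟨T1, h1, h1'⟩ := k1
  obtain ⟨T2, h2, h2'⟩ := k2
  rcases le_total T1.card T2.card with h3 | h3
  · have h4 : (T1.card : ℝ) ≤ T2.card := by exact_mod_cast h3
    exact ⟨T1, h1', h1, h4.trans h2⟩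
  · exact ⟨T2, h2', h3.trans h1, h2⟩

/-- The sign vectors force `2 ^ N` translates for the polydisc. -/
theorem lower (N : ℕ) (T : Finset (⊤ : Submodule ℂ (Fin N → ℂ)))
    (hT : CoversBall (⊤ : Submodule ℂ (Fin N → ℂ)) T) : 2 ^ N ≤ T.card := by
  classical
  let s : (Fin N → Bool) → (⊤ : Submodule ℂ (Fin N → ℂ)) :=
    fun ε => ⟨fun i => if ε i then 1 else -1, trivial⟩
  have hs : ∀ ε, ‖s ε‖ ≤ 1 := by
    intro ε
    change ‖(fun i => if ε i then (1 : ℂ) else -1)‖ ≤ 1
    rw [pi_norm_le_iff_of_nonneg zero_le_one]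
    intro i
    by_cases h : ε i <;> simp [h]
  have h1 : ∀ ε, ∃ t ∈ T, ‖s ε - t‖ < 1 := fun ε => of_coversBall hT _ (hs ε)
  choose g hg1 hg2 using h1
  have hinj : Function.Injective g := by
    intro ε ε' he
    by_contra hne
    obtain ⟨i, hi⟩ := Function.ne_iff.1 hne
    have h2 : ‖s ε - s ε'‖ < 2 := by
      have e : s ε - s ε' = (s ε - g ε) - (s ε' - g ε') := by rw [he]; abel
      rw [e]
      refine (norm_sub_le _ _).trans_lt ?_
      have := hg2 ε
      have := hg2 ε'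
      linarith
    have h3 : ‖(s ε - s ε' : (⊤ : Submodule ℂ (Fin N → ℂ))).1 i‖ ≤ ‖s ε - s ε'‖ :=
      norm_le_pi_norm (s ε - s ε' : (⊤ : Submodule ℂ (Fin N → ℂ))).1 i
    have h4 : ‖(s ε - s ε' : (⊤ : Submodule ℂ (Fin N → ℂ))).1 i‖ = 2 := by
      change ‖(if ε i then (1 : ℂ) else -1) - (if ε' i then (1 : ℂ) else -1)‖ = 2
      cases h5 : ε i <;> cases h6 : ε' i <;> simp_all <;> norm_num
    linarith
  have h5 : Fintype.card (Fin N → Bool) ≤ T.card := by
    have := Finset.card_le_card_of_injOn (s := Finset.univ) (t := T) g (fun ε _ => hg1 ε)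
      hinj.injOn
    simpa using this
  simpa using h5

/-- `K` is a convex body with `K = -K`. -/
def IsSymBody {E : Type*} [NormedAddCommGroup E] [InnerProductSpace ℝ E] (K : Set E) : Prop :=
  Convex ℝ K ∧ IsCompact K ∧ (interior K).Nonempty ∧ ∀ x ∈ K, -x ∈ K

/-- `K` is invariant under an orthogonal representation `ρ` of `SO(n)` on `E` without nonzero fixed
vectors, all matrix coefficients of which are polynomials of degree at most `k` in the entries of
the rotation. -/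
def HasRotations {E : Type*} [NormedAddCommGroup E] [InnerProductSpace ℝ E] (n k : ℕ)
    (K : Set E) : Prop :=
  ∃ ρ : Matrix.specialOrthogonalGroup (Fin n) ℝ →* (E ≃ₗᵢ[ℝ] E),
    (∀ x y : E, ∃ P : MvPolynomial (Fin n × Fin n) ℝ, P.totalDegree ≤ k ∧
      ∀ g : Matrix.specialOrthogonalGroup (Fin n) ℝ, ⟪y, ρ g x⟫_ℝ
        = MvPolynomial.eval (fun p => (g : Matrix (Fin n) (Fin n) ℝ) p.1 p.2) P) ∧
    (∀ x : E, (∀ g, ρ g x = x) → x = 0) ∧
    (∀ g, ∀ x ∈ K, ρ g x ∈ K)

/-- `K` is invariant under the one-parameter groups generated by a compact semisimple Lie algebra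
of skew operators `∑ a_i X_i` without common kernel, with structure constants `c i j k` which are
antisymmetric in `i` and `k` (the basis `X_i` is orthonormal for an invariant inner product), the
Killing form of which is at least `γ` in absolute value, and with `‖∑ a_i X_i‖ ≤ κ` for all
`a` with `∑ a_i² ≤ 1`. -/
def HasLieAlgebra {E : Type*} [NormedAddCommGroup E] [InnerProductSpace ℝ E] (γ κ : ℝ)
    (K : Set E) : Prop :=
  ∃ (ι : Type) (_ : Fintype ι) (X : ι → E →L[ℝ] E) (c : ι → ι → ι → ℝ),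
    (∀ i x y, ⟪X i x, y⟫_ℝ = -⟪x, X i y⟫_ℝ) ∧
    (∀ i j x, X i (X j x) - X j (X i x) = ∑ k, c i j k • X k x) ∧
    (∀ i j k, c i j k = -c k j i) ∧
    (∀ v : ι → ℝ, γ * ∑ k, v k ^ 2 ≤ ∑ i, ∑ j, (∑ k, c i j k * v k) ^ 2) ∧
    (∀ x, (∀ i, X i x = 0) → x = 0) ∧
    (∀ a : ι → ℝ, ∑ i, a i ^ 2 ≤ 1 → ∀ x, ‖∑ i, a i • X i x‖ ≤ κ * ‖x‖) ∧
    (∀ a : ι → ℝ, ∀ x ∈ K, NormedSpace.exp (∑ i, a i • X i) x ∈ K)

/-- The bounds of parts 2 and 3, in terms of the parameter `s`: the convex body `K` is covered by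
at most `1 + 13 d log(4d+1) 2^d e^(-2s)` translates of its interior, and these are less than
`2^d` if `s ≥ 5` and `log d ≤ s`, where `d` is the dimension of `E`. -/
def FewTranslates {E : Type*} [NormedAddCommGroup E] [InnerProductSpace ℝ E] (K : Set E)
    (s : ℝ) : Prop :=
  ∃ T : Finset E, K ⊆ ⋃ t ∈ T, (fun x => t + x) '' interior K ∧
    (T.card : ℝ) ≤ 1 + 13 * finrank ℝ E * Real.log (4 * finrank ℝ E + 1) * 2 ^ finrank ℝ E
      * Real.exp (-(2 * s)) ∧
    (5 ≤ s → Real.log (finrank ℝ E) ≤ s → T.card < 2 ^ finrank ℝ E)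

section Lie

set_option linter.unusedSectionVars false

variable {E : Type*} [NormedAddCommGroup E] [InnerProductSpace ℝ E] [FiniteDimensional ℝ E]

lemma few_of {K : Set E} {s : ℝ} (hd : 2 ≤ finrank ℝ E)
    (h : ∃ T : Finset E, K ⊆ ⋃ t ∈ T, (fun x => t + x) '' interior K ∧
      (T.card : ℝ) ≤ 1 + 13 * Module.finrank ℝ E * Real.log (4 * Module.finrank ℝ E + 1)
        * 2 ^ Module.finrank ℝ E * Real.exp (-(2 * s)) ∧
      (18 * Module.finrank ℝ E * Real.log (4 * Module.finrank ℝ E + 1)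
        * Real.exp (-(2 * s)) ≤ 1 → T.card < 2 ^ Module.finrank ℝ E)) : FewTranslates K s := by
  obtain ⟨T, hT, h1, h2⟩ := h
  refine ⟨T, hT, h1, fun hs hds => h2 (TH591.Lie.strict_of_exp _ ?_ s hs hds)⟩
  exact_mod_cast (by omega : 1 ≤ Module.finrank ℝ E)

theorem few_so (K : Set E) (hd : 2 ≤ finrank ℝ E)
    (hK : Convex ℝ K) (hKc : IsCompact K) (hKi : (interior K).Nonempty) (hKs : ∀ x ∈ K, -x ∈ K)
    (n k : ℕ) (hn : 3 ≤ n) (hk : 1 ≤ k)
    (ρ : Matrix.specialOrthogonalGroup (Fin n) ℝ →* (E ≃ₗᵢ[ℝ] E))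
    (hρ : ∀ x y : E, ∃ P : MvPolynomial (Fin n × Fin n) ℝ, P.totalDegree ≤ k ∧
        ∀ g : Matrix.specialOrthogonalGroup (Fin n) ℝ, ⟪y, ρ g x⟫_ℝ
          = MvPolynomial.eval (fun p => (g : Matrix (Fin n) (Fin n) ℝ) p.1 p.2) P)
    (hfix : ∀ x : E, (∀ g, ρ g x = x) → x = 0)
    (hinv : ∀ g, ∀ x ∈ K, ρ g x ∈ K) : FewTranslates K ((n - 2) / (2048 * k ^ 2)) := by
  let _ : MeasurableSpace E := borel E
  have _ : BorelSpace E := ⟨rfl⟩
  refine few_of hd ?_
  have h := TH591.Lie.cover_so hn k hk ρ hρ hfix K hd hK hKc hKi hKs hinv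
  have hk' : (1 : ℝ) ≤ k := by exact_mod_cast hk
  have e : ((n : ℝ) - 2) / (1024 * k ^ 2) = 2 * ((n - 2) / (2048 * k ^ 2)) := by
    field_simp; ring
  rw [e] at h
  exact h

theorem few_lie (K : Set E) (hd : 2 ≤ finrank ℝ E)
    (hK : Convex ℝ K) (hKc : IsCompact K) (hKi : (interior K).Nonempty) (hKs : ∀ x ∈ K, -x ∈ K)
    (ι : Type) [Fintype ι] (X : ι → E →L[ℝ] E) (c : ι → ι → ι → ℝ) (γ κ : ℝ) (hγ : 0 < γ)
    (hκ : 0 < κ) (hX : ∀ i x y, ⟪X i x, y⟫_ℝ = -⟪x, X i y⟫_ℝ)
    (hc : ∀ i j x, X i (X j x) - X j (X i x) = ∑ k, c i j k • X k x)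
    (hanti : ∀ i j k, c i j k = -c k j i)
    (hkill : ∀ v : ι → ℝ, γ * ∑ k, v k ^ 2 ≤ ∑ i, ∑ j, (∑ k, c i j k * v k) ^ 2)
    (hfix : ∀ x, (∀ i, X i x = 0) → x = 0)
    (hn : ∀ a : ι → ℝ, ∑ i, a i ^ 2 ≤ 1 → ∀ x, ‖∑ i, a i • X i x‖ ≤ κ * ‖x‖)
    (hinv : ∀ a : ι → ℝ, ∀ x ∈ K, NormedSpace.exp (∑ i, a i • X i) x ∈ K) :
    FewTranslates K (γ / (4096 * κ ^ 2)) := by
  let _ : MeasurableSpace E := borel E
  have _ : BorelSpace E := ⟨rfl⟩
  refine few_of hd ?_
  have h := TH591.Lie.cover_casimir X hX (TH591.Lie.casimir_comm X c hc hanti) γ hγ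
    (TH591.Lie.kill_bound X c hc γ hkill) hfix κ hκ hn K hd hK hKc hKi hKs hinv
  have e : γ / (2048 * κ ^ 2) = 2 * (γ / (4096 * κ ^ 2)) := by
    field_simp; norm_num
  rw [e] at h
  exact h

end Lie

/-- **Main result.** -/
theorem result.{u, v} :
    -- 1. the unit balls of the unital JC*-algebras
    (∀ (A : Type u) [CStarAlgebra A] [Nontrivial A] (J : Submodule ℂ A) [FiniteDimensional ℂ J],
      UnitalJCStar J →
        ∃ T : Finset J, CoversBall J T ∧ T.card ≤ 2 ^ finrank ℝ J ∧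
          (T.card : ℝ) ≤
            2 ^ (finrank ℂ J + 1) * (finrank ℂ J : ℝ) * Real.log (57 * (finrank ℂ J : ℝ))) ∧
    (∀ N : ℕ, 0 < N →
      UnitalJCStar (⊤ : Submodule ℂ (Fin N → ℂ)) ∧
      finrank ℂ (⊤ : Submodule ℂ (Fin N → ℂ)) = N ∧
      ∀ T : Finset (⊤ : Submodule ℂ (Fin N → ℂ)),
        CoversBall (⊤ : Submodule ℂ (Fin N → ℂ)) T → 2 ^ N ≤ T.card) ∧
    -- 2. and 3. bodies with many rotations, or with a compact Lie algebra of symmetries
    (∀ (E : Type v) [NormedAddCommGroup E] [InnerProductSpace ℝ E] [FiniteDimensional ℝ E]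
      (K : Set E), 2 ≤ finrank ℝ E → IsSymBody K →
      (∀ n k : ℕ, 3 ≤ n → 1 ≤ k → HasRotations n k K →
        FewTranslates K ((n - 2) / (2048 * k ^ 2))) ∧
      (∀ γ κ : ℝ, 0 < γ → 0 < κ → HasLieAlgebra γ κ K →
        FewTranslates K (γ / (4096 * κ ^ 2)))) := by
  refine ⟨fun A _ _ J _ h => upper J h, fun N _ => ⟨⟨trivial, fun _ _ => trivial,
    fun _ _ => trivial⟩, by simp, fun T hT => lower N T hT⟩, ?_⟩
  rintro E _ _ _ K hd ⟨hK, hKc, hKi, hKs⟩
  refine ⟨?_, ?_⟩
  · rintro n k hn hk ⟨ρ, hρ, hfix, hinv⟩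
    exact few_so K hd hK hKc hKi hKs n k hn hk ρ hρ hfix hinv
  · rintro γ κ hγ hκ ⟨ι, _, X, c, hX, hc, hanti, hkill, hfix, hn, hinv⟩
    exact few_lie K hd hK hKc hKi hKs ι X c γ κ hγ hκ hX hc hanti hkill hfix hn hinv

end Pool.Agent.Results.MP_eba1ef_gt.JordanAlgebrasAndLieSymmetries
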