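import Pool.Agent.TH597.JC.Final

/-!
# Coverings of the unit balls of finite dimensional JC*-algebras by translates of their interior
-/

set_option autoImplicit false

open Module Metric Set

namespace Pool.Agent.Results.MP_eba1ef_gt.JordanOperatorAlgebras

/-- `J` is a unital JC*-algebra: a complex linear subspace of the C*-algebra `A` which contains
the unit of `A` and is closed under the involution and under squares. -/
structure UnitalJCStar {A : Type*} [CStarAlgebra A] (J : Submodule ℂ A) : Prop where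
  one_mem : (1 : A) ∈ J
  star_mem : ∀ x ∈ J, star x ∈ J
  sq_mem : ∀ x ∈ J, x * x ∈ J

/-- The translates by the vectors of `T` of the interior of the closed unit ball of `E` cover the
closed unit ball of `E`. -/
def CoversBall (E : Type*) [NormedAddCommGroup E] (T : Finset E) : Prop :=
  closedBall (0 : E) 1 ⊆ ⋃ t ∈ T, (fun x => t + x) '' interior (closedBall (0 : E) 1)

lemma coversBall_of {E : Type*} [NormedAddCommGroup E] {T : Finset E}
    (hT : ∀ x : E, ‖x‖ ≤ 1 → ∃ t ∈ T, ‖x - t‖ < 1) : CoversBall E T := by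
  intro x hx
  rw [mem_closedBall_zero_iff] at hx
  obtain ⟨t, ht, hxt⟩ := hT x hx
  refine mem_iUnion₂.2 ⟨t, ht, x - t, ?_, by simp⟩
  refine ball_subset_interior_closedBall ?_
  rwa [mem_ball_zero_iff]

lemma of_coversBall {E : Type*} [NormedAddCommGroup E] [NormedSpace ℝ E] {T : Finset E}
    (hT : CoversBall E T) (x : E) (hx : ‖x‖ ≤ 1) : ∃ t ∈ T, ‖x - t‖ < 1 := by
  have h1 := hT (mem_closedBall_zero_iff.2 hx)
  obtain ⟨t, ht, y, hy, hyx⟩ := mem_iUnion₂.1 h1
  refine ⟨t, ht, ?_⟩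
  rw [interior_closedBall (0 : E) one_ne_zero, mem_ball_zero_iff] at hy
  have : x - t = y := by rw [← hyx]; simp
  rwa [this]

lemma lift_cover {A : Type*} [CStarAlgebra A] (J : Submodule ℂ A) (T : Finset A) (lam : ℝ)
    (hlam : lam < 1) (hTJ : ∀ t ∈ T, t ∈ J) (hT : ∀ x ∈ J, ‖x‖ ≤ 1 → ∃ t ∈ T, ‖x - t‖ ≤ lam) :
    ∃ T' : Finset J, T'.card ≤ T.card ∧ CoversBall J T' := by
  classical
  refine ⟨T.attach.image fun t => (⟨t.1, hTJ t.1 t.2⟩ : J), ?_, ?_⟩
  · exact Finset.card_image_le.trans (by rw [Finset.card_attach])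
  · refine coversBall_of fun x hx => ?_
    obtain ⟨t, ht, hxt⟩ := hT x x.2 hx
    refine ⟨⟨t, hTJ t ht⟩, ?_, lt_of_le_of_lt hxt hlam⟩
    exact Finset.mem_image.2 ⟨⟨t, ht⟩, Finset.mem_attach _ _, rfl⟩

theorem upper {A : Type*} [CStarAlgebra A] [Nontrivial A] (J : Submodule ℂ A)
    [FiniteDimensional ℂ J] (h : UnitalJCStar J) :
    ∃ T : Finset J, CoversBall J T ∧ T.card ≤ 2 ^ finrank ℝ J ∧
      (T.card : ℝ) ≤
        2 ^ (finrank ℂ J + 1) * (finrank ℂ J : ℝ) * Real.log (57 * (finrank ℂ J : ℝ)) := by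
  have hJ : Pool.Agent.TH597.JC.JCAlg J := ⟨h.one_mem, h.star_mem, h.sq_mem⟩
  have k1 : ∃ T : Finset J, T.card ≤ 2 ^ finrank ℝ J ∧ CoversBall J T := by
    obtain ⟨T, hT, hc, hcov⟩ := Pool.Agent.TH597.JC.cover_four hJ
    obtain ⟨T1, lam, -, hlam, hT1, hc1, hcov1⟩ := Pool.Agent.TH597.JC.cover_ball hJ T hT hcov
    obtain ⟨T2, hc2, hcov2⟩ := lift_cover J T1 lam hlam hT1 hcov1
    refine ⟨T2, ?_, hcov2⟩
    have h2 : finrank ℝ J = 2 * finrank ℂ J := finrank_real_of_complex J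
    rw [h2, pow_mul]
    exact hc2.trans (hc1.trans hc)
  have k2 : ∃ T : Finset J, (T.card : ℝ) ≤
      2 ^ (finrank ℂ J + 1) * (finrank ℂ J : ℝ) * Real.log (57 * (finrank ℂ J : ℝ)) ∧
        CoversBall J T := by
    obtain ⟨T, hT, hc, hcov⟩ := Pool.Agent.TH597.JC.cover_two hJ
    obtain ⟨T1, lam, -, hlam, hT1, hc1, hcov1⟩ := Pool.Agent.TH597.JC.cover_ball hJ T hT hcov
    obtain ⟨T2, hc2, hcov2⟩ := lift_cover J T1 lam hlam hT1 hcov1
    refine ⟨T2, ?_, hcov2⟩
    have h2 : (T2.card : ℝ) ≤ T.card := by exact_mod_cast hc2.trans hc1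
    exact h2.trans hc
  obtain ⟨T1, h1, h1'⟩ := k1
  obtain ⟨T2, h2, h2'⟩ := k2
  rcases le_total T1.card T2.card with h3 | h3
  · have h4 : (T1.card : ℝ) ≤ T2.card := by exact_mod_cast h3
    exact ⟨T1, h1', h1, h4.trans h2⟩
  · exact ⟨T2, h2', h3.trans h1, h2⟩

/-- The sign vectors force `2 ^ N` translates for the polydisc. -/
theorem lower (N : ℕ) (T : Finset (⊤ : Submodule ℂ (Fin N → ℂ)))
    (hT : CoversBall (⊤ : Submodule ℂ (Fin N → ℂ)) T) : 2 ^ N ≤ T.card := by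
  classical
  let s : (Fin N → Bool) → (⊤ : Submodule ℂ (Fin N → ℂ)) :=
    fun ε => ⟨fun i => if ε i then 1 else -1, trivial⟩
  have hs : ∀ ε, ‖s ε‖ ≤ 1 := by
    intro ε
    change ‖(fun i => if ε i then (1 : ℂ) else -1)‖ ≤ 1
    rw [pi_norm_le_iff_of_nonneg zero_le_one]
    intro i
    by_cases h : ε i <;> simp [h]
  have h1 : ∀ ε, ∃ t ∈ T, ‖s ε - t‖ < 1 := fun ε => of_coversBall hT _ (hs ε)
  choose g hg1 hg2 using h1
  have hinj : Function.Injective g := by
    intro ε ε' he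
    by_contra hne
    obtain ⟨i, hi⟩ := Function.ne_iff.1 hne
    have h2 : ‖s ε - s ε'‖ < 2 := by
      have e : s ε - s ε' = (s ε - g ε) - (s ε' - g ε') := by rw [he]; abel
      rw [e]
      refine (norm_sub_le _ _).trans_lt ?_
      have := hg2 ε
      have := hg2 ε'
      linarith
    have h3 : ‖(s ε - s ε' : (⊤ : Submodule ℂ (Fin N → ℂ))).1 i‖ ≤ ‖s ε - s ε'‖ :=
      norm_le_pi_norm (s ε - s ε' : (⊤ : Submodule ℂ (Fin N → ℂ))).1 i
    have h4 : ‖(s ε - s ε' : (⊤ : Submodule ℂ (Fin N → ℂ))).1 i‖ = 2 := by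
      change ‖(if ε i then (1 : ℂ) else -1) - (if ε' i then (1 : ℂ) else -1)‖ = 2
      cases h5 : ε i <;> cases h6 : ε' i <;> simp_all <;> norm_num
    linarith
  have h5 : Fintype.card (Fin N → Bool) ≤ T.card := by
    have := Finset.card_le_card_of_injOn (s := Finset.univ) (t := T) g (fun ε _ => hg1 ε)
      hinj.injOn
    simpa using this
  simpa using h5

/-- **Main result.** Let `c_N` be the largest covering number `c(K)` of the unit balls `K` of the
unital JC*-algebras of complex dimension `N` (they are convex bodies of dimension `2 N`). Then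
`c_N ≤ 2 ^ (2 N)`, the conjectured bound, and
`2 ^ N ≤ c_N ≤ 2 ^ (N + 1) * N * log (57 * N)`, so that `c_N` is the square root of the
conjectured bound up to a factor `O(N log N)`. -/
theorem result.{u} :
    (∀ (A : Type u) [CStarAlgebra A] [Nontrivial A] (J : Submodule ℂ A) [FiniteDimensional ℂ J],
      UnitalJCStar J →
        ∃ T : Finset J, CoversBall J T ∧ T.card ≤ 2 ^ finrank ℝ J ∧
          (T.card : ℝ) ≤
            2 ^ (finrank ℂ J + 1) * (finrank ℂ J : ℝ) * Real.log (57 * (finrank ℂ J : ℝ))) ∧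
    (∀ N : ℕ, 0 < N →
      UnitalJCStar (⊤ : Submodule ℂ (Fin N → ℂ)) ∧
      finrank ℂ (⊤ : Submodule ℂ (Fin N → ℂ)) = N ∧
      ∀ T : Finset (⊤ : Submodule ℂ (Fin N → ℂ)),
        CoversBall (⊤ : Submodule ℂ (Fin N → ℂ)) T → 2 ^ N ≤ T.card) := by
  refine ⟨fun A _ _ J _ h => upper J h, fun N _ => ⟨⟨trivial, fun _ _ => trivial,
    fun _ _ => trivial⟩, by simp, fun T hT => lower N T hT⟩⟩

end Pool.Agent.Results.MP_eba1ef_gt.JordanOperatorAlgebras
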