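import Mathlib
import Pool.Agent.TH591.Un.Lower

set_option autoImplicit false

/-!
# MP_eba1ef_gt: unconditional bodies without large boxes

Let `K` be a convex body in `ℝ^d` which is symmetric about all coordinate hyperplanes, and let `h i`
be half the length of its chord on the `i`-th coordinate axis (so `∏ [-h i, h i]` is the
smallest box which contains `K`). We prove that `K` is covered by at most
`1 + 13 d log(4d+1) 2^d e^(-2s)` translates of its interior, and by less than `2^d` translates if
`s ≥ 5` and `s ≥ log d`, where `s = 1 / (29600 √M)` and `M` is the mean over `x ∈ K` of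
`(1/d) ∑ |x i| / h i`. In particular `M` may be replaced by the maximum of the same function on `K`.

Consequences. Let `θ > 0` and `s = 1 / (29600 √(2θ))`. Then

* either there is a set `A` of at least `θ d` coordinates such that the section of `K` by the
  coordinate subspace `ℝ^A` contains the box `θ ∏_{i ∈ A} [-h i, h i]`, i.e. it lies between this
  box and `θ⁻¹` times the same box,
* or `K` is covered as above.

So an unconditional body satisfies the conjecture (with less than `2^d` translates) unless it has a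
coordinate section of dimension at least `c d / log² d` whose distance to a cube is at most
`C log² d`. In particular this is true in all high dimensions for the unit balls of the
unconditional norms with a lower `q`-estimate `|A|^(1/q) ≤ C ‖∑_{i ∈ A} h_i e_i‖` (for instance with
cotype `q` constant `C`), for given `q` and `C`: Orlicz and Lorentz spaces, mixed norms, etc. It was
known for bodies which are moreover symmetric under the permutations of the coordinates (Tikhomirov).

The proof. Let `g` be the norm with unit ball `K`, and let `x`, `v` be independent random vectors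
with the density `e^(-g) / Z`. (a) By the symmetry of `K` the coordinates of `v` are uncorrelated, so
`E (Dg(x)[v])^2 = ∑ E (D_i g(x))^2 E v_i^2`. (b) Here `(D_i g)^2 ≤ g(e_i) |D_i g|`. (c) The function
`e^(-g)` is unimodal in each coordinate, so `E |D_i g(x)| = 2 r_i(0) / Z`, where `r_i` is the marginal
density (not normalized) of the `i`-th coordinate. (d) `r_i` is even and log-concave, therefore
`r_i(0) E v_i^2 ≤ 200 Z E |v_i|`. (e) By homogeneity the average over `z, z' ∈ K` of
`(Dg(z)[z'])^2` is at most `400 / (d + 2)` times the sum of the numbers `b_i / h_i`, where `b_i` is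
the average over `K` of `|z_i|`. So `K` has flatness at most `20 √M`, and the covering theorem for
bodies with small flatness (`ThinSlabs`) applies. (f) If there is no box as above, then for each `x`
in `K` less than `θ d` of the numbers `|x i| / h i ≤ 1` are at least `θ`, hence `M ≤ 2θ`.
-/

namespace Pool.Agent.Results.MP_eba1ef_gt.UnconditionalWithoutLargeBox

open Pool.Agent MeasureTheory

/-- `K` is a convex body (compact, convex, with nonempty interior) and is invariant under the changes
of signs of the coordinates. -/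
def IsUnconditionalBody {d : ℕ} (K : Set (EuclideanSpace ℝ (Fin d))) : Prop :=
  Convex ℝ K ∧ IsCompact K ∧ (interior K).Nonempty ∧
    ∀ x ∈ K, ∀ y : EuclideanSpace ℝ (Fin d), (∀ i, |y i| = |x i|) → y ∈ K

/-- `h i` is the largest number `t` such that `t e_i` belongs to `K`. -/
def HasHalfAxes {d : ℕ} (K : Set (EuclideanSpace ℝ (Fin d))) (h : Fin d → ℝ) : Prop :=
  ∀ i, IsGreatest {t : ℝ | (EuclideanSpace.single i t : EuclideanSpace ℝ (Fin d)) ∈ K} (h i)

/-- The section of `K` by the coordinate subspace `ℝ^A` contains the box with the half-axes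
`θ h i`, `i ∈ A`. -/
def ContainsBox {d : ℕ} (K : Set (EuclideanSpace ℝ (Fin d))) (h : Fin d → ℝ) (θ : ℝ)
    (A : Finset (Fin d)) : Prop :=
  ∀ x : EuclideanSpace ℝ (Fin d), (∀ i, |x i| ≤ if i ∈ A then θ * h i else 0) → x ∈ K

/-- The norm with the unit ball `K` satisfies the lower estimate
`|A| ≤ (C ‖∑_{i ∈ A} h_i e_i‖)^q`. -/
def LowerEstimate {d : ℕ} (K : Set (EuclideanSpace ℝ (Fin d))) (h : Fin d → ℝ) (q C : ℝ) : Prop :=
  ∀ A : Finset (Fin d), (A.card : ℝ) ≤
    (C * gauge K (WithLp.toLp 2 fun i => if i ∈ A then h i else 0)) ^ q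

/-- `K` is covered by at most `1 + 13 d log(4d+1) 2^d e^(-2s)` translates of its interior, and this
number is less than `2^d` if `s ≥ 5` and `s ≥ log d`. -/
def Covered {d : ℕ} (K : Set (EuclideanSpace ℝ (Fin d))) (s : ℝ) : Prop :=
  ∃ T : Finset (EuclideanSpace ℝ (Fin d)),
    K ⊆ ⋃ t ∈ T, (fun x => t + x) '' interior K ∧
    (T.card : ℝ) ≤ 1 + 13 * d * Real.log (4 * d + 1) * 2 ^ d * Real.exp (-(2 * s)) ∧
    (5 ≤ s → Real.log d ≤ s → T.card < 2 ^ d)

/-- **Main theorem.** -/
theorem result :
    -- the bound by the mean of the coordinates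
    (∀ d : ℕ, 2 ≤ d → ∀ (K : Set (EuclideanSpace ℝ (Fin d))) (h : Fin d → ℝ),
      IsUnconditionalBody K → HasHalfAxes K h → ∀ M : ℝ, 0 < M →
      (⨍ x in K, ∑ i, |x i| / h i) ≤ M * d → Covered K (1 / (29600 * √M))) ∧
    -- the dichotomy
    (∀ d : ℕ, 2 ≤ d → ∀ (K : Set (EuclideanSpace ℝ (Fin d))) (h : Fin d → ℝ),
      IsUnconditionalBody K → HasHalfAxes K h → ∀ θ : ℝ, 0 < θ →
      (∃ A : Finset (Fin d), θ * d ≤ A.card ∧ ContainsBox K h θ A) ∨
      Covered K (1 / (29600 * √(2 * θ)))) ∧
    -- norms with a lower estimate, in high dimensions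
    (∀ q C : ℝ, 0 < q → 0 < C → ∃ d₀ : ℕ, ∀ d : ℕ, d₀ ≤ d →
      ∀ (K : Set (EuclideanSpace ℝ (Fin d))) (h : Fin d → ℝ),
        IsUnconditionalBody K → HasHalfAxes K h → LowerEstimate K h q C →
        ∃ T : Finset (EuclideanSpace ℝ (Fin d)),
          K ⊆ ⋃ t ∈ T, (fun x => t + x) '' interior K ∧ T.card < 2 ^ d) := by
  have mean : ∀ d : ℕ, 2 ≤ d → ∀ (K : Set (EuclideanSpace ℝ (Fin d))) (h : Fin d → ℝ),
      IsUnconditionalBody K → HasHalfAxes K h → ∀ M : ℝ, 0 < M →
      (⨍ x in K, ∑ i, |x i| / h i) ≤ M * d → Covered K (1 / (29600 * √M)) := by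
    rintro d hd K h ⟨hK, hKc, hKi, hKu⟩ hh M hM hmean
    exact TH591.Un.cover_mean d hd K hK hKc hKi hKu h hh M _ hM rfl hmean
  have box : ∀ d : ℕ, 2 ≤ d → ∀ (K : Set (EuclideanSpace ℝ (Fin d))) (h : Fin d → ℝ),
      IsUnconditionalBody K → HasHalfAxes K h → ∀ θ : ℝ, 0 < θ →
      (∃ A : Finset (Fin d), θ * d ≤ A.card ∧ ContainsBox K h θ A) ∨
      Covered K (1 / (29600 * √(2 * θ))) := by
    intro d hd K h hKK hh θ hθ
    by_cases hbox : ∃ A : Finset (Fin d), θ * d ≤ A.card ∧ ContainsBox K h θ A
    · exact Or.inl hbox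
    · right
      obtain ⟨hK, hKc, hKi, hKu⟩ := hKK
      refine mean d hd K h ⟨hK, hKc, hKi, hKu⟩ hh (2 * θ) (by positivity) ?_
      refine TH591.Un.average_le hK hKc hKi hKu _ fun z hz => ?_
      refine TH591.Un.sum_of_noBox hK hKc hKi hKu hh θ hθ (fun A hA => ?_) z hz
      by_contra hcon
      apply hbox
      refine ⟨A, hA, fun x hx => ?_⟩
      by_contra hxK
      exact hcon ⟨x, hx, hxK⟩
  refine ⟨mean, box, fun q C hq hC => ?_⟩
  obtain ⟨d₀, hd₀⟩ := TH591.Un.exists_theta q C hq hC
  refine ⟨max d₀ 2, fun d hd K h hK hh hlow => ?_⟩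
  obtain ⟨θ, s, hθ, hs, h5, hlog, hbig⟩ := hd₀ d (le_trans (le_max_left _ _) hd)
  rcases box d (le_trans (le_max_right _ _) hd) K h hK hh θ hθ with ⟨A, hA, hbox⟩ | hT
  · exfalso
    have h0K : (0 : EuclideanSpace ℝ (Fin d)) ∈ K := by
      obtain ⟨x, hx⟩ := hK.2.2.1
      have hx1 := interior_subset hx
      have hx2 : -x ∈ K := hK.2.2.2 x hx1 _ fun i => by simp
      have h1 := hK.1 hx1 hx2 (show (0 : ℝ) ≤ 1 / 2 by norm_num)
        (show (0 : ℝ) ≤ 1 / 2 by norm_num) (by norm_num)
      rwa [smul_neg, add_neg_cancel] at h1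
    have h0 : ∀ i, 0 ≤ h i := fun i => (hh i).2 (by
      show (EuclideanSpace.single i (0 : ℝ) : EuclideanSpace ℝ (Fin d)) ∈ K
      have : (EuclideanSpace.single i (0 : ℝ) : EuclideanSpace ℝ (Fin d)) = 0 := by simp
      rw [this]
      exact h0K)
    obtain ⟨x, hx, hxK⟩ := TH591.Un.noBox_of_lower d K h h0 q C θ hq hC hθ hlow hbig A hA
    exact hxK (hbox x hx)
  · obtain ⟨T, h1, -, h3⟩ := hT
    rw [← hs] at h3
    exact ⟨T, h1, h3 h5 hlog⟩

end Pool.Agent.Results.MP_eba1ef_gt.UnconditionalWithoutLargeBox
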